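import Pool.Agent.Y328.PFin

/-!
# Polynomial actions of arithmetic subgroups of `SL_n(k)`, `k` totally complex

Let `k` be a totally complex number field, `n ≥ 3`, and let `Γ ⊂ SL_n(k)` be commensurable with the
group generated by the elementary matrices with entries in `𝓞 k`.  Let `M` be a subset of `ℝ^N` of
algebraic dimension less than `2 (n - 1)`: any `2 (n - 1)` polynomials satisfy a non-trivial algebraic
relation on `M`.  Then every action of `Γ` on `M` by bijections which are restrictions of polynomial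
maps has finite image.
-/

namespace Pool.Agent.Results.MP_d483fb_an.PolynomialActions

open NumberField Matrix

theorem result (k : Type) [Field k] [NumberField k] [IsTotallyComplex k] (n : ℕ) (hn : 3 ≤ n)
    (E Γ : Subgroup (SpecialLinearGroup (Fin n) k))
    (hE : E = Subgroup.closure {x | ∃ (i j : Fin n) (h : i ≠ j) (a : 𝓞 k),
      x = SpecialLinearGroup.transvection h (a : k)})
    (hΓ : Subgroup.Commensurable Γ E)
    (N : ℕ) (M : Set (Fin N → ℝ))
    (hdim : ∀ f : Fin (2 * (n - 1)) → MvPolynomial (Fin N) ℝ,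
      ∃ P : MvPolynomial (Fin (2 * (n - 1))) ℝ, P ≠ 0 ∧
        ∀ x ∈ M, MvPolynomial.eval (fun i => MvPolynomial.eval x (f i)) P = 0)
    (α : Γ →* Equiv.Perm M)
    (hα : ∀ γ : Γ, ∀ i : Fin N, ∃ P : MvPolynomial (Fin N) ℝ,
      ∀ x : M, (α γ x : Fin N → ℝ) i = MvPolynomial.eval (x : Fin N → ℝ) P) :
    (Set.range α).Finite := by
  have h1 : E = (Pool.Agent.Y328.Elem (Fin n) (𝓞 k)).map
      (SpecialLinearGroup.map (algebraMap (𝓞 k) k)) := by
    rw [hE]
    unfold Pool.Agent.Y328.Elem
    rw [MonoidHom.map_closure]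
    congr 1
    ext x
    constructor
    · rintro ⟨i, j, h, a, rfl⟩
      exact ⟨_, ⟨i, j, h, a, rfl⟩, Pool.Agent.Y328.map_trans _ h a⟩
    · rintro ⟨_, ⟨i, j, h, a, rfl⟩, rfl⟩
      exact ⟨i, j, h, a, Pool.Agent.Y328.map_trans _ h a⟩
  rw [h1] at hΓ
  exact Pool.Agent.Y328.main_poly k n hn Γ hΓ N M hdim α hα

end Pool.Agent.Results.MP_d483fb_an.PolynomialActions
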